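import Pool.Agent.E8helper19.LC.Stm

/-!
# LC3: the Green function of `-Δ + 1` in the plane

With `E m x = (4π)⁻¹ ∫ (cosh θ)^m e^(-x cosh θ) dθ` one has `G = E 0`, and `H = E 1`, `Q = E 2`
have the required properties.
-/

set_option autoImplicit false
open MeasureTheory Filter Topology Set
open scoped Real
open Pool.Agent.E8helper19.LC

namespace Pool.Agent.E8helper44.LC

noncomputable section

/-- the integrand -/
def ker (m : ℕ) (x θ : ℝ) : ℝ := Real.cosh θ ^ m * Real.exp (-(x * Real.cosh θ))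

/-- `E m x = (4π)⁻¹ ∫ (cosh θ)^m e^(-x cosh θ) dθ` -/
def E (m : ℕ) (x : ℝ) : ℝ := (4 * π)⁻¹ * ∫ θ, ker m x θ

lemma cosh_lb (θ : ℝ) : (1 + θ ^ 2) / 4 ≤ Real.cosh θ := by
  have h : Real.exp |θ| / 2 ≤ Real.cosh θ := by
    rw [← Real.cosh_abs, Real.cosh_eq]
    have := Real.exp_pos (-|θ|)
    linarith
  have h2 := Real.quadratic_le_exp_of_nonneg (abs_nonneg θ)
  have h3 : |θ| ^ 2 = θ ^ 2 := sq_abs θ
  have h4 := abs_nonneg θ
  nlinarith

lemma cosh_pos' (θ : ℝ) : 0 < Real.cosh θ := Real.cosh_pos θ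

lemma int_sech : Integrable (fun θ : ℝ => (Real.cosh θ)⁻¹) := by
  refine (integrable_inv_one_add_sq.const_mul 4).mono'
    (Real.continuous_cosh.inv₀ (fun θ => (cosh_pos' θ).ne')).aestronglyMeasurable
    (Eventually.of_forall fun θ => ?_)
  have h := cosh_lb θ
  have h1 : 0 < (1 + θ ^ 2) / 4 := by positivity
  rw [Real.norm_of_nonneg (inv_nonneg.2 (cosh_pos' θ).le)]
  calc (Real.cosh θ)⁻¹ ≤ ((1 + θ ^ 2) / 4)⁻¹ := inv_anti₀ h1 h
    _ = 4 * (1 + θ ^ 2)⁻¹ := by rw [inv_div]; rfl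

lemma int_sech_pow (n : ℕ) (hn : 1 ≤ n) : Integrable (fun θ : ℝ => (Real.cosh θ ^ n)⁻¹) := by
  refine int_sech.mono'
    ((Real.continuous_cosh.pow n).inv₀ (fun θ => (pow_pos (cosh_pos' θ) n).ne')).aestronglyMeasurable
    (Eventually.of_forall fun θ => ?_)
  rw [Real.norm_of_nonneg (inv_nonneg.2 (pow_pos (cosh_pos' θ) n).le)]
  refine inv_anti₀ (cosh_pos' θ) ?_
  exact le_self_pow₀ (Real.one_le_cosh θ) (by omega)

lemma ker_nonneg (m : ℕ) (x θ : ℝ) : 0 ≤ ker m x θ :=
  mul_nonneg (pow_pos (cosh_pos' θ) m).le (Real.exp_pos _).le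

lemma ker_pos (m : ℕ) (x θ : ℝ) : 0 < ker m x θ :=
  mul_pos (pow_pos (cosh_pos' θ) m) (Real.exp_pos _)

lemma cont_ker (m : ℕ) : Continuous (fun z : ℝ × ℝ => ker m z.1 z.2) := by
  unfold ker
  have := Real.continuous_cosh
  fun_prop

lemma int_ker (m : ℕ) {x : ℝ} (hx : 0 < x) : Integrable (ker m x) := by
  refine (int_sech.const_mul (((m + 1).factorial : ℝ) / x ^ (m + 1))).mono'
    ((cont_ker m).comp (by fun_prop : Continuous fun θ : ℝ => ((x, θ) : ℝ × ℝ))).aestronglyMeasurable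
    (Eventually.of_forall fun θ => ?_)
  rw [Real.norm_of_nonneg (ker_nonneg m x θ)]
  have hc := cosh_pos' θ
  have h := Real.pow_div_factorial_le_exp (x := x * Real.cosh θ) (by positivity) (m + 1)
  have hf : (0 : ℝ) < (m + 1).factorial := by exact_mod_cast Nat.factorial_pos _
  have h2 : (0 : ℝ) < (x * Real.cosh θ) ^ (m + 1) / (m + 1).factorial := by positivity
  unfold ker
  rw [Real.exp_neg]
  calc Real.cosh θ ^ m * (Real.exp (x * Real.cosh θ))⁻¹
      ≤ Real.cosh θ ^ m * ((x * Real.cosh θ) ^ (m + 1) / (m + 1).factorial)⁻¹ :=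
        mul_le_mul_of_nonneg_left (inv_anti₀ h2 h) (by positivity)
    _ = ((m + 1).factorial : ℝ) / x ^ (m + 1) * (Real.cosh θ)⁻¹ := by
        rw [inv_div, mul_pow, pow_succ (Real.cosh θ)]
        field_simp

lemma c4 : 0 < (4 * π)⁻¹ := by positivity

lemma E_nonneg (m : ℕ) (x : ℝ) : 0 ≤ E m x :=
  mul_nonneg c4.le (integral_nonneg (ker_nonneg m x))

lemma E_pos (m : ℕ) {x : ℝ} (hx : 0 < x) : 0 < E m x := by
  refine mul_pos c4 ?_
  rw [integral_pos_iff_support_of_nonneg (ker_nonneg m x) (int_ker m hx)]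
  have : Function.support (ker m x) = univ := by
    ext θ; simp [Function.mem_support, (ker_pos m x θ).ne']
  rw [this]; simp

lemma E_anti (m : ℕ) {x y : ℝ} (hx : 0 < x) (hxy : x ≤ y) : E m y ≤ E m x := by
  refine mul_le_mul_of_nonneg_left ?_ c4.le
  refine integral_mono (int_ker m (hx.trans_le hxy)) (int_ker m hx) fun θ => ?_
  refine mul_le_mul_of_nonneg_left (Real.exp_le_exp.2 ?_) (pow_pos (cosh_pos' θ) m).le
  have := cosh_pos' θ
  nlinarith

lemma E_lip {x y : ℝ} (hx : 0 < x) (hxy : x ≤ y) : E 0 x - E 0 y ≤ (y - x) * E 1 x := by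
  have hy := hx.trans_le hxy
  have h : ∫ θ, ker 0 x θ ≤ ∫ θ, (ker 0 y θ + (y - x) * ker 1 x θ) := by
    refine integral_mono (int_ker 0 hx) ((int_ker 0 hy).add ((int_ker 1 hx).const_mul _))
      fun θ => ?_
    simp only [ker, pow_zero, one_mul, pow_one]
    have hc := cosh_pos' θ
    have e1 : Real.exp (-(y * Real.cosh θ)) =
        Real.exp (-(x * Real.cosh θ)) * Real.exp (-((y - x) * Real.cosh θ)) := by
      rw [← Real.exp_add]; congr 1; ring
    have e2 := Real.add_one_le_exp (-((y - x) * Real.cosh θ))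
    have e3 := Real.exp_pos (-(x * Real.cosh θ))
    rw [e1]
    nlinarith
  rw [integral_add (int_ker 0 hy) ((int_ker 1 hx).const_mul _), integral_const_mul] at h
  have h4 := c4
  unfold E
  nlinarith

lemma E_tay {x y : ℝ} (hx : 0 < x) (hxy : x ≤ y) :
    |E 0 x - E 0 y - (y - x) * E 1 y| ≤ (y - x) ^ 2 * E 2 x := by
  have hy := hx.trans_le hxy
  have e : E 0 x - E 0 y - (y - x) * E 1 y =
      (4 * π)⁻¹ * ∫ θ, (ker 0 x θ - ker 0 y θ - (y - x) * ker 1 y θ) := by
    have e1 : ∫ θ, (ker 0 x θ - ker 0 y θ - (y - x) * ker 1 y θ) =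
        (∫ θ, (ker 0 x θ - ker 0 y θ)) - ∫ θ, (y - x) * ker 1 y θ :=
      integral_sub ((int_ker 0 hx).sub (int_ker 0 hy)) ((int_ker 1 hy).const_mul _)
    rw [e1, integral_sub (int_ker 0 hx) (int_ker 0 hy), integral_const_mul]
    unfold E
    ring
  rw [e, abs_mul, abs_of_pos c4]
  have h : |∫ θ, (ker 0 x θ - ker 0 y θ - (y - x) * ker 1 y θ)| ≤
      ∫ θ, (y - x) ^ 2 * ker 2 x θ := by
    rw [← Real.norm_eq_abs]
    refine (norm_integral_le_of_norm_le ((int_ker 2 hx).const_mul _)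
      (Eventually.of_forall fun θ => ?_))
    rw [Real.norm_eq_abs]
    simp only [ker, pow_zero, one_mul, pow_one]
    have hc := cosh_pos' θ
    set d := (y - x) * Real.cosh θ with hd
    have hd0 : 0 ≤ d := mul_nonneg (by linarith) hc.le
    have e1 : Real.exp (-(y * Real.cosh θ)) =
        Real.exp (-(x * Real.cosh θ)) * Real.exp (-d) := by
      rw [← Real.exp_add]; congr 1; rw [hd]; ring
    have e2 : Real.exp (-(x * Real.cosh θ)) - Real.exp (-(y * Real.cosh θ)) -
        (y - x) * (Real.cosh θ * Real.exp (-(y * Real.cosh θ))) =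
        Real.exp (-(x * Real.cosh θ)) * (1 - Real.exp (-d) - d * Real.exp (-d)) := by
      rw [e1, hd]; ring
    have e3 : (y - x) ^ 2 * (Real.cosh θ ^ 2 * Real.exp (-(x * Real.cosh θ))) =
        Real.exp (-(x * Real.cosh θ)) * d ^ 2 := by
      rw [hd]; ring
    rw [e2, e3, abs_mul, abs_of_pos (Real.exp_pos _)]
    refine mul_le_mul_of_nonneg_left ?_ (Real.exp_pos _).le
    have f1 := Real.add_one_le_exp (-d)
    have f2 : Real.exp (-d) * (1 + d) ≤ 1 := by
      have := Real.add_one_le_exp d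
      calc Real.exp (-d) * (1 + d) ≤ Real.exp (-d) * Real.exp d :=
            mul_le_mul_of_nonneg_left (by linarith) (Real.exp_pos _).le
        _ = 1 := by rw [← Real.exp_add]; simp
    rw [abs_of_nonneg (by nlinarith)]
    nlinarith
  rw [integral_const_mul] at h
  have h4 := c4
  unfold E
  nlinarith

lemma meas_E (m : ℕ) : Measurable (E m) := by
  unfold E
  refine Measurable.const_mul ?_ _
  exact ((cont_ker m).stronglyMeasurable.integral_prod_right').measurable


/-! ## The Green function -/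

lemma Gk_eq {μ ρ : ℝ} (hμ : 0 < μ) (hρ : 0 < ρ) : Gk μ ρ = E 0 (μ * ρ) := by
  set c : ℝ := ρ / (2 * μ) with hc
  have hc0 : 0 < c := by positivity
  have h1 : Gk μ ρ = c * ∫ s in Ioi (0 : ℝ),
      (4 * π * (c * s))⁻¹ * Real.exp (-(ρ ^ 2 / (4 * (c * s)) + μ ^ 2 * (c * s))) := by
    have := integral_comp_mul_left_Ioi' (fun t : ℝ =>
      (4 * π * t)⁻¹ * Real.exp (-(ρ ^ 2 / (4 * t) + μ ^ 2 * t))) 0 hc0
    rw [mul_zero, smul_eq_mul] at this
    exact this.symm
  have h2 := integral_image_eq_integral_abs_deriv_smul (s := univ) (f := Real.exp)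
    (f' := Real.exp) MeasurableSet.univ (fun x _ => (Real.hasDerivAt_exp x).hasDerivWithinAt)
    Real.exp_injective.injOn (fun s : ℝ =>
      (4 * π * (c * s))⁻¹ * Real.exp (-(ρ ^ 2 / (4 * (c * s)) + μ ^ 2 * (c * s))))
  rw [image_univ, Real.range_exp, setIntegral_univ] at h2
  rw [h1, h2, ← integral_const_mul]
  unfold E
  rw [← integral_const_mul]
  refine integral_congr_ae (Eventually.of_forall fun θ => ?_)
  have he := Real.exp_pos θ
  have e1 : ρ ^ 2 / (4 * (c * Real.exp θ)) + μ ^ 2 * (c * Real.exp θ) =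
      μ * ρ * Real.cosh θ := by
    rw [hc, Real.cosh_eq, Real.exp_neg]
    field_simp
    ring
  simp only [ker, pow_zero, one_mul, smul_eq_mul]
  rw [e1, abs_of_pos he]
  field_simp

/-! ## Integrability -/

lemma int_pow_exp (j : ℕ) {c : ℝ} (hc : 0 < c) :
    IntegrableOn (fun x : ℝ => x ^ j * Real.exp (-(x * c))) (Ioi 0) := by
  have h := integrableOn_rpow_mul_exp_neg_mul_rpow (p := 1) (s := (j : ℝ)) (b := c)
    (by have : (0 : ℝ) ≤ j := Nat.cast_nonneg j
        linarith) one_pos hc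
  refine h.congr_fun (fun x hx => ?_) measurableSet_Ioi
  simp only [Real.rpow_natCast, Real.rpow_one]
  congr 2
  ring

lemma val_pow_exp (j : ℕ) {c : ℝ} (hc : 0 < c) :
    ∫ x in Ioi (0 : ℝ), x ^ j * Real.exp (-(x * c)) = (j.factorial : ℝ) * (c ^ (j + 1))⁻¹ := by
  have h := Real.integral_rpow_mul_exp_neg_mul_Ioi (a := (j : ℝ) + 1) (r := c)
    (by positivity) hc
  rw [Real.Gamma_nat_eq_factorial] at h
  have e : ((1 / c) ^ ((j : ℝ) + 1) : ℝ) = (c ^ (j + 1))⁻¹ := by
    have : ((j : ℝ) + 1) = ((j + 1 : ℕ) : ℝ) := by push_cast; ring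
    rw [this, Real.rpow_natCast, one_div, inv_pow]
  rw [e, mul_comm] at h
  rw [← h]
  refine setIntegral_congr_fun measurableSet_Ioi fun x hx => ?_
  simp only [add_sub_cancel_right, Real.rpow_natCast]
  congr 2
  ring

/-- the integrand in two variables -/
def F2 (j m : ℕ) (x θ : ℝ) : ℝ := x ^ j * ker m x θ

lemma F2_eq (j m : ℕ) (x θ : ℝ) :
    F2 j m x θ = Real.cosh θ ^ m * (x ^ j * Real.exp (-(x * Real.cosh θ))) := by
  unfold F2 ker; ring

lemma val_F2 (j m : ℕ) (hm : m ≤ j) (θ : ℝ) :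
    ∫ x in Ioi (0 : ℝ), F2 j m x θ = (j.factorial : ℝ) * (Real.cosh θ ^ (j + 1 - m))⁻¹ := by
  simp only [F2_eq]
  rw [integral_const_mul, val_pow_exp j (cosh_pos' θ)]
  have hc := cosh_pos' θ
  have : j + 1 = (j + 1 - m) + m := by omega
  conv_lhs => rw [this, pow_add]
  field_simp

lemma int_F2 (j m : ℕ) (hm : m ≤ j) :
    Integrable (Function.uncurry (F2 j m)) ((volume.restrict (Ioi (0 : ℝ))).prod volume) := by
  have hcont : Continuous (Function.uncurry (F2 j m)) := by
    unfold F2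
    exact (continuous_fst.pow j).mul (cont_ker m)
  rw [integrable_prod_iff' hcont.aestronglyMeasurable]
  constructor
  · refine Eventually.of_forall fun θ => ?_
    have := (int_pow_exp j (cosh_pos' θ)).const_mul (Real.cosh θ ^ m)
    refine this.congr (Eventually.of_forall fun x => ?_)
    exact (F2_eq j m x θ).symm
  · have h := (int_sech_pow (j + 1 - m) (by omega)).const_mul (j.factorial : ℝ)
    refine h.congr (Eventually.of_forall fun θ => ?_)
    simp only
    rw [← val_F2 j m hm θ]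
    refine setIntegral_congr_fun measurableSet_Ioi fun x hx => ?_
    have hx0 : (0 : ℝ) < x := hx
    simp only [Function.uncurry]
    rw [Real.norm_of_nonneg]
    exact mul_nonneg (by positivity) (ker_nonneg m x θ)

lemma E_F2 (j m : ℕ) (x : ℝ) : x ^ j * E m x = (4 * π)⁻¹ * ∫ θ, F2 j m x θ := by
  unfold E F2
  rw [integral_const_mul]
  ring

lemma int_E (j m : ℕ) (hm : m ≤ j) : IntegrableOn (fun x => x ^ j * E m x) (Ioi 0) := by
  have h := (int_F2 j m hm).integral_prod_left.const_mul (4 * π)⁻¹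
  refine h.congr (Eventually.of_forall fun x => ?_)
  exact (E_F2 j m x).symm

/-! ## The integral of `sech³` -/

lemma tendsto_cosh_top : Tendsto Real.cosh atTop atTop := by
  refine tendsto_atTop_mono (f := fun θ : ℝ => θ * (1 / 2)) (fun θ => ?_)
    (tendsto_id.atTop_mul_const (by norm_num))
  have := cosh_lb θ
  nlinarith [sq_nonneg (θ - 1)]

lemma tendsto_cosh_bot : Tendsto Real.cosh atBot atTop := by
  have h := tendsto_cosh_top.comp tendsto_neg_atBot_atTop
  refine h.congr fun θ => ?_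
  simp [Function.comp, Real.cosh_neg]

lemma sinh_le (θ : ℝ) : |Real.sinh θ / Real.cosh θ ^ 2| ≤ (Real.cosh θ)⁻¹ := by
  have hc := cosh_pos' θ
  rw [abs_div, abs_of_pos (by positivity : 0 < Real.cosh θ ^ 2), div_le_iff₀ (by positivity)]
  have e : (Real.cosh θ)⁻¹ * Real.cosh θ ^ 2 = Real.cosh θ := by field_simp
  rw [e]
  refine abs_le_of_sq_le_sq ?_ hc.le
  have := Real.cosh_sq θ
  linarith

lemma int_sech3 : ∫ θ, (Real.cosh θ ^ 3)⁻¹ = π / 2 := by
  have hd : ∀ θ, HasDerivAt (fun θ : ℝ => (Real.sinh θ / Real.cosh θ ^ 2 +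
      Real.arctan (Real.sinh θ)) / 2) ((Real.cosh θ ^ 3)⁻¹) θ := by
    intro θ
    have hc := cosh_pos' θ
    have h1 := (Real.hasDerivAt_sinh θ).div ((Real.hasDerivAt_cosh θ).pow 2)
      (pow_ne_zero 2 hc.ne')
    have h2 := (Real.hasDerivAt_sinh θ).arctan
    have h3 := (h1.add h2).div_const 2
    refine h3.congr_deriv ?_
    have hs := Real.cosh_sq θ
    have hs2 : 1 + Real.sinh θ ^ 2 = Real.cosh θ ^ 2 := by linarith
    have hs3 : Real.sinh θ ^ 2 = Real.cosh θ ^ 2 - 1 := by linarith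
    rw [hs2]
    simp only [Nat.cast_ofNat, Nat.add_one_sub_one, pow_one, Pi.pow_apply]
    field_simp
    ring_nf
    rw [hs3]
    ring
  have hz : ∀ l : Filter ℝ, Tendsto Real.cosh l atTop →
      Tendsto (fun θ => Real.sinh θ / Real.cosh θ ^ 2) l (𝓝 0) := by
    intro l hl
    refine squeeze_zero_norm (fun θ => ?_) (tendsto_inv_atTop_zero.comp hl)
    exact sinh_le θ
  have htop := ((hz _ tendsto_cosh_top).add ((Real.tendsto_arctan_atTop.mono_right
    nhdsWithin_le_nhds).comp Real.sinhOrderIso.tendsto_atTop)).div_const 2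
  have hbot := ((hz _ tendsto_cosh_bot).add ((Real.tendsto_arctan_atBot.mono_right
    nhdsWithin_le_nhds).comp Real.sinhOrderIso.tendsto_atBot)).div_const 2
  rw [integral_of_hasDerivAt_of_tendsto hd (int_sech_pow 3 (by norm_num)) hbot htop]
  ring

lemma val_E : ∫ x in Ioi (0 : ℝ), x ^ 3 * E 1 x = 3 / 4 := by
  simp only [E_F2]
  rw [integral_const_mul, integral_integral_swap (int_F2 3 1 (by norm_num))]
  simp only [val_F2 3 1 (by norm_num)]
  rw [integral_const_mul]
  simp only [show 3 + 1 - 1 = 3 from rfl]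
  rw [int_sech3]
  simp only [Nat.factorial]
  push_cast
  field_simp
  norm_num

/-! ## Continuity and the even extension -/

lemma cont_E : ContinuousOn (E 0) (Ioi 0) := by
  intro x hx
  have hx0 : (0 : ℝ) < x := hx
  refine (continuousAt_of_locally_lipschitz (r := x / 2) (by positivity) (E 1 (x / 2))
    fun y hy => ?_).continuousWithinAt
  rw [Real.dist_eq] at hy ⊢
  rw [Real.dist_eq]
  have hy2 := abs_lt.1 hy
  have hy0 : 0 < y := by linarith
  rcases le_total x y with h | h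
  · have h1 := E_lip hx0 h
    have h2 := E_anti 0 hx0 h
    have h3 := E_anti 1 (by positivity : 0 < x / 2) (by linarith : x / 2 ≤ x)
    rw [abs_of_nonpos (by linarith), abs_of_nonneg (by linarith)]
    nlinarith
  · have h1 := E_lip hy0 h
    have h2 := E_anti 0 hy0 h
    have h3 := E_anti 1 (by positivity : 0 < x / 2) (by linarith : x / 2 ≤ y)
    rw [abs_of_nonneg (by linarith), abs_of_nonpos (by linarith)]
    nlinarith

lemma int_even (g : ℝ → ℝ) (hg : ∀ x, g (-x) = g x) (h : IntegrableOn g (Ioi 0)) :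
    Integrable g := by
  rw [← integrableOn_univ, ← Iic_union_Ioi (a := (0 : ℝ))]
  refine IntegrableOn.union ?_ h
  have h2 : IntegrableOn g (Ici (-0 : ℝ)) := by
    rw [neg_zero]
    exact Iff.mpr integrableOn_Ici_iff_integrableOn_Ioi h
  have h3 := h2.comp_neg_Iic
  refine h3.congr (Eventually.of_forall fun x => ?_)
  exact hg x

/-- LC3 -/
theorem t_G : S_G := by
  refine ⟨fun μ ρ hμ hρ => ⟨?_, ?_⟩, fun μ hμ => ?_, fun x y hx hxy => ?_, fun j => ?_,
    fun μ hμ => ?_, E 1, E 2, meas_E 1, meas_E 2, fun x _ => ⟨E_nonneg 1 x, E_nonneg 2 x⟩,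
    fun x y hx hxy => ⟨E_anti 1 hx hxy, E_anti 2 hx hxy⟩, fun x y hx hxy => ?_,
    fun x y hx hxy => ?_, fun j hj => int_E j 1 hj, fun j hj => int_E j 2 hj, val_E⟩
  · rw [Gk_eq hμ hρ]
    exact E_pos 0 (by positivity)
  · rw [Gk_eq hμ hρ, Gk_eq one_pos (by positivity), one_mul]
  · have h : ContinuousOn (fun ρ => E 0 (μ * ρ)) (Ioi 0) :=
      cont_E.comp (by fun_prop) (fun ρ hρ => mul_pos hμ hρ)
    exact h.congr fun ρ hρ => Gk_eq hμ hρ
  · rw [Gk_eq one_pos hx, Gk_eq one_pos (hx.trans_le hxy), one_mul, one_mul]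
    exact E_anti 0 hx hxy
  · refine (int_E j 0 (Nat.zero_le j)).congr_fun (fun x hx => ?_) measurableSet_Ioi
    simp only
    rw [Gk_eq one_pos hx, one_mul]
  · refine int_even _ (fun x => by rw [abs_neg]) ?_
    have h0 : IntegrableOn (E 0) (Ioi (μ * 0)) := by
      rw [mul_zero]
      simpa using int_E 0 0 le_rfl
    have h1 := (integrableOn_Ioi_comp_mul_left_iff (E 0) 0 hμ).2 h0
    refine h1.congr_fun (fun x hx => ?_) measurableSet_Ioi
    have hx0 : (0 : ℝ) < x := hx
    simp only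
    rw [abs_of_pos hx0, Gk_eq hμ hx0]
  · rw [Gk_eq one_pos hx, Gk_eq one_pos (hx.trans_le hxy), one_mul, one_mul]
    exact E_lip hx hxy
  · rw [Gk_eq one_pos hx, Gk_eq one_pos (hx.trans_le hxy), one_mul, one_mul]
    exact E_tay hx hxy

end

end Pool.Agent.E8helper44.LC
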